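import Mathlib

/-!
# Nilpotent rigid Leibniz algebras (MP_dfe2cd_al, Q1, partial)

Let `A` be a nilpotent (right) Leibniz algebra of dimension `n ≥ 2` over `ℂ` whose orbit is
Zariski-open in the variety of Leibniz structures. Then `A` is not a Lie algebra, its left or its
right annihilator lies in `A ^ 2`, and for linear forms `f`, `g` on `A / A ^ 2`: if the two-sided
annihilator does not lie in the span of the squares then `f(x) g(x)` is a component of `x ↦ xx`,
and if it does not lie in the span of the commutators then `f(x) g(y) - f(y) g(x)` is a component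
of `(x, y) ↦ xy - yx`.

The proof uses the structures `xy + t f(x) g(y) z` with `z` in the annihilator and `f z = g z = 0`:
all of them are Leibniz, so if `A` is rigid one with `t ≠ 0` is isomorphic to `A`.
-/

set_option autoImplicit false

namespace Pool.Agent.Results.MP_dfe2cd_al.RigidNilpotent

/-- bilinear products on `ℂ ^ n` -/
abbrev Prod' (n : ℕ) : Type := (Fin n → ℂ) →ₗ[ℂ] (Fin n → ℂ) →ₗ[ℂ] (Fin n → ℂ)

/-- the Leibniz identity `(xy)z = (xz)y + x(yz)` -/
def Leibniz {n : ℕ} (μ : Prod' n) : Prop :=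
  ∀ x y z : Fin n → ℂ, μ (μ x y) z = μ (μ x z) y + μ x (μ y z)

/-- the left-normed product `(((x 0) (x 1)) ...) (x m)` -/
def leftProd {n : ℕ} (μ : Prod' n) (x : ℕ → (Fin n → ℂ)) : ℕ → (Fin n → ℂ)
  | 0 => x 0
  | i + 1 => μ (leftProd μ x i) (x (i + 1))

/-- all left-normed products of some length vanish -/
def Nilpotent {n : ℕ} (μ : Prod' n) : Prop := ∃ m, ∀ x, leftProd μ x m = 0

/-- isomorphism of products -/
def Iso {n : ℕ} (μ ν : Prod' n) : Prop :=
  ∃ g : (Fin n → ℂ) ≃ₗ[ℂ] (Fin n → ℂ), ∀ x y : Fin n → ℂ, ν (g x) (g y) = g (μ x y)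

/-- the orbit of `μ` is Zariski-open in the variety of Leibniz structures: among the Leibniz
structures, those not isomorphic to `μ` are the common zeros of a set of polynomials in the
structure constants -/
def Rigid {n : ℕ} (μ : Prod' n) : Prop :=
  ∃ S : Set (MvPolynomial (Fin n × Fin n × Fin n) ℂ), ∀ ν : Prod' n, Leibniz ν →
    (¬ Iso μ ν ↔ ∀ p ∈ S, MvPolynomial.eval (fun t : Fin n × Fin n × Fin n =>
      ν (Pi.single t.1 (1 : ℂ)) (Pi.single t.2.1 (1 : ℂ)) t.2.2) p = 0)

/-- the two-sided annihilator -/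
def Ann {n : ℕ} (μ : Prod' n) : Set (Fin n → ℂ) := {z | ∀ x, μ z x = 0 ∧ μ x z = 0}

/-- `A ^ 2`, the span of the products -/
def Square {n : ℕ} (μ : Prod' n) : Submodule ℂ (Fin n → ℂ) :=
  Submodule.span ℂ {v | ∃ x y, v = μ x y}

/-- the left annihilator: the elements `z` with `z x = 0` for all `x` -/
def LAnn {n : ℕ} (μ : Prod' n) : Set (Fin n → ℂ) := {z | ∀ x, μ z x = 0}

/-- the right annihilator: the elements `z` with `x z = 0` for all `x` -/
def RAnn {n : ℕ} (μ : Prod' n) : Set (Fin n → ℂ) := {z | ∀ x, μ x z = 0}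

/-- `A` is a Lie algebra: all squares vanish (the Jacobi identity is then the Leibniz one) -/
def IsLie {n : ℕ} (μ : Prod' n) : Prop := ∀ x, μ x x = 0

/-- the linear form `f` vanishes on all products, so it is a form on `A / A ^ 2` -/
def OnQuotient {n : ℕ} (μ : Prod' n) (f : (Fin n → ℂ) →ₗ[ℂ] ℂ) : Prop := ∀ x y, f (μ x y) = 0

/-- for all forms `f`, `g` on `A / A ^ 2` some form `φ` has `f(x) g(x) = φ(xx)` -/
def SquareComponents {n : ℕ} (μ : Prod' n) : Prop :=
  ∀ f g, OnQuotient μ f → OnQuotient μ g →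
    ∃ φ : (Fin n → ℂ) →ₗ[ℂ] ℂ, ∀ x, f x * g x = φ (μ x x)

/-- for all forms `f`, `g` on `A / A ^ 2` some form `φ` has `f(x) g(y) - f(y) g(x) = φ(xy - yx)` -/
def CommComponents {n : ℕ} (μ : Prod' n) : Prop :=
  ∀ f g, OnQuotient μ f → OnQuotient μ g →
    ∃ φ : (Fin n → ℂ) →ₗ[ℂ] ℂ, ∀ x y, f x * g y - f y * g x = φ (μ x y - μ y x)

/-- the span of the commutators `xy - yx` -/
def Comm {n : ℕ} (μ : Prod' n) : Submodule ℂ (Fin n → ℂ) :=
  Submodule.span ℂ {v | ∃ x y, v = μ x y - μ y x}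

/-- the span of the squares `xx` -/
def Leib {n : ℕ} (μ : Prod' n) : Submodule ℂ (Fin n → ℂ) :=
  Submodule.span ℂ {v | ∃ x, v = μ x x}

section Curve

variable {n : ℕ} (μ : Prod' n) (f g : (Fin n → ℂ) →ₗ[ℂ] ℂ) (z : Fin n → ℂ)

/-- the deformed structure `xy + t f(x) g(y) z` -/
def nu (t : ℂ) : Prod' n :=
  LinearMap.mk₂ ℂ (fun x y => μ x y + (t * f x * g y) • z)
    (by intro a b c; simp only [map_add, LinearMap.add_apply, mul_add, add_mul, add_smul]; abel)
    (by intro a b c; simp only [map_smul, LinearMap.smul_apply, smul_eq_mul, smul_add, smul_smul]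
        congr 2; ring)
    (by intro a b c; simp only [map_add, mul_add, add_smul]; abel)
    (by intro a b c; simp only [map_smul, smul_eq_mul, smul_add, smul_smul]
        congr 2; ring)

lemma nu_apply (t : ℂ) (x y : Fin n → ℂ) : nu μ f g z t x y = μ x y + (t * f x * g y) • z := rfl

variable (hL : Leibniz μ) (hz : z ∈ Ann μ) (hfz : f z = 0) (hf : ∀ x y, f (μ x y) = 0)
  (hgz : g z = 0) (hg : ∀ x y, g (μ x y) = 0)

include hL hz hfz hf hgz hg in
lemma nu_leibniz (t : ℂ) : Leibniz (nu μ f g z t) := by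
  intro x y w
  simp only [nu_apply, map_add, map_smul, LinearMap.add_apply, LinearMap.smul_apply, hf, hfz, hg,
    hgz, (hz _).1, (hz _).2, smul_zero, mul_zero, zero_mul, add_zero, zero_smul]
  exact hL x y w

include hL hz hfz hf hgz hg in
lemma exists_iso (hR : Rigid μ) : ∃ t : ℂ, t ≠ 0 ∧ Iso μ (nu μ f g z t) := by
  obtain ⟨S, hS⟩ := hR
  have h0 : Iso μ μ := ⟨LinearEquiv.refl ℂ _, fun x y => rfl⟩
  have h1 : ¬ ∀ p ∈ S, MvPolynomial.eval (fun t : Fin n × Fin n × Fin n =>
      μ (Pi.single t.1 (1 : ℂ)) (Pi.single t.2.1 (1 : ℂ)) t.2.2) p = 0 :=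
    fun h => ((hS μ hL).2 h) h0
  push Not at h1
  obtain ⟨p, hp, hp0⟩ := h1
  let q : Polynomial ℂ := MvPolynomial.eval₂ Polynomial.C
    (fun t : Fin n × Fin n × Fin n =>
      Polynomial.C (μ (Pi.single t.1 (1 : ℂ)) (Pi.single t.2.1 (1 : ℂ)) t.2.2) +
      Polynomial.X * Polynomial.C (f (Pi.single t.1 (1 : ℂ)) * g (Pi.single t.2.1 (1 : ℂ)) *
        z t.2.2)) p
  have hq : ∀ s : ℂ, q.eval s = MvPolynomial.eval (fun t : Fin n × Fin n × Fin n =>
      nu μ f g z s (Pi.single t.1 (1 : ℂ)) (Pi.single t.2.1 (1 : ℂ)) t.2.2) p := by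
    intro s
    simp only [q]
    rw [MvPolynomial.polynomial_eval_eval₂]
    rw [MvPolynomial.eval, MvPolynomial.coe_eval₂Hom]
    congr 1
    · ext a; simp
    · funext t
      simp only [Polynomial.eval_add, Polynomial.eval_C, Polynomial.eval_mul, Polynomial.eval_X,
        nu_apply, Pi.add_apply, Pi.smul_apply, smul_eq_mul]
      ring
  have hnu0 : nu μ f g z 0 = μ := by
    apply LinearMap.ext; intro x
    apply LinearMap.ext; intro y
    simp [nu_apply]
  have hq0 : q ≠ 0 := by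
    intro h
    have := hq 0
    rw [h, hnu0] at this
    simp only [Polynomial.eval_zero] at this
    exact hp0 this.symm
  have hqX : q * Polynomial.X ≠ 0 := mul_ne_zero hq0 Polynomial.X_ne_zero
  obtain ⟨t, ht⟩ : ∃ t, (q * Polynomial.X).eval t ≠ 0 := by
    by_contra h
    push Not at h
    exact hqX (Polynomial.funext (fun t => by simpa using h t))
  rw [Polynomial.eval_mul, Polynomial.eval_X] at ht
  refine ⟨t, right_ne_zero_of_mul ht, ?_⟩
  by_contra hiso
  have := (hS (nu μ f g z t) (nu_leibniz μ f g z hL hz hfz hf hgz hg t)).1 hiso p hp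
  rw [← hq] at this
  exact left_ne_zero_of_mul ht this

include hL hz hfz hf hgz hg in
/-- if `z` is not in the span of the squares then `f g` is a component of the square map -/
lemma component (hR : Rigid μ) (hzS : z ∉ Leib μ) :
    ∃ φ : (Fin n → ℂ) →ₗ[ℂ] ℂ, ∀ x, f x * g x = φ (μ x x) := by
  obtain ⟨t, ht, e, he⟩ := exists_iso μ f g z hL hz hfz hf hgz hg hR
  have hmap : Leib (nu μ f g z t) = (Leib μ).map e.toLinearMap := by
    unfold Leib
    rw [Submodule.map_span]
    congr 1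
    ext v
    constructor
    · rintro ⟨x, rfl⟩
      refine ⟨μ (e.symm x) (e.symm x), ⟨_, rfl⟩, ?_⟩
      have := he (e.symm x) (e.symm x)
      simp only [LinearEquiv.apply_symm_apply] at this
      exact this.symm
    · rintro ⟨_, ⟨x, rfl⟩, rfl⟩
      exact ⟨e x, (he x x).symm⟩
  have hfin : Module.finrank ℂ (Leib (nu μ f g z t)) = Module.finrank ℂ (Leib μ) := by
    rw [hmap]
    exact LinearEquiv.finrank_map_eq e (Leib μ)
  by_cases hmem : z ∈ Leib (nu μ f g z t)
  · exfalso
    have hlt : Leib μ < Leib (nu μ f g z t) := by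
      refine lt_of_le_of_ne ?_ (fun h => hzS (h ▸ hmem))
      refine Submodule.span_le.2 ?_
      rintro v ⟨x, rfl⟩
      have h1 : nu μ f g z t x x ∈ Leib (nu μ f g z t) := Submodule.subset_span ⟨x, rfl⟩
      have h2 : μ x x = nu μ f g z t x x - (t * f x * g x) • z := by
        rw [nu_apply]; abel
      show μ x x ∈ Leib (nu μ f g z t)
      rw [h2]
      exact Submodule.sub_mem _ h1 (Submodule.smul_mem _ _ hmem)
    have := Submodule.finrank_lt_finrank_of_lt hlt
    omega
  · obtain ⟨φ, hφ1, hφ2⟩ := Submodule.exists_le_ker_of_notMem hmem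
    refine ⟨(-(t * φ z)⁻¹) • φ, fun x => ?_⟩
    have h1 : φ (nu μ f g z t x x) = 0 :=
      LinearMap.mem_ker.1 (hφ2 (Submodule.subset_span ⟨x, rfl⟩))
    rw [nu_apply, map_add, map_smul, smul_eq_mul] at h1
    have h3 : t * φ z ≠ 0 := mul_ne_zero ht hφ1
    have h4 : φ (μ x x) = -(t * f x * g x * φ z) := by linear_combination h1
    rw [LinearMap.smul_apply, smul_eq_mul, h4]
    field_simp

include hL hz hfz hf hgz hg in
/-- if `z` is not in the span of the commutators then `f ∧ g` is a component of the commutator -/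
lemma component_comm (hR : Rigid μ) (hzS : z ∉ Comm μ) :
    ∃ φ : (Fin n → ℂ) →ₗ[ℂ] ℂ, ∀ x y, f x * g y - f y * g x = φ (μ x y - μ y x) := by
  obtain ⟨t, ht, e, he⟩ := exists_iso μ f g z hL hz hfz hf hgz hg hR
  have hmap : Comm (nu μ f g z t) = (Comm μ).map e.toLinearMap := by
    unfold Comm
    rw [Submodule.map_span]
    congr 1
    ext v
    constructor
    · rintro ⟨x, y, rfl⟩
      refine ⟨μ (e.symm x) (e.symm y) - μ (e.symm y) (e.symm x), ⟨_, _, rfl⟩, ?_⟩
      have h1 := he (e.symm x) (e.symm y)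
      have h2 := he (e.symm y) (e.symm x)
      simp only [LinearEquiv.apply_symm_apply] at h1 h2
      show e (_ - _) = _
      rw [map_sub, ← h1, ← h2]
    · rintro ⟨_, ⟨x, y, rfl⟩, rfl⟩
      refine ⟨e x, e y, ?_⟩
      show e (_ - _) = _
      rw [map_sub, ← he, ← he]
  have hfin : Module.finrank ℂ (Comm (nu μ f g z t)) = Module.finrank ℂ (Comm μ) := by
    rw [hmap]
    exact LinearEquiv.finrank_map_eq e (Comm μ)
  by_cases hmem : z ∈ Comm (nu μ f g z t)
  · exfalso
    have hlt : Comm μ < Comm (nu μ f g z t) := by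
      refine lt_of_le_of_ne ?_ (fun h => hzS (h ▸ hmem))
      refine Submodule.span_le.2 ?_
      rintro v ⟨x, y, rfl⟩
      have h1 : nu μ f g z t x y - nu μ f g z t y x ∈ Comm (nu μ f g z t) :=
        Submodule.subset_span ⟨x, y, rfl⟩
      have h2 : μ x y - μ y x = (nu μ f g z t x y - nu μ f g z t y x) -
          (t * f x * g y - t * f y * g x) • z := by
        rw [nu_apply, nu_apply, sub_smul]; abel
      show μ x y - μ y x ∈ Comm (nu μ f g z t)
      rw [h2]
      exact Submodule.sub_mem _ h1 (Submodule.smul_mem _ _ hmem)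
    have := Submodule.finrank_lt_finrank_of_lt hlt
    omega
  · obtain ⟨φ, hφ1, hφ2⟩ := Submodule.exists_le_ker_of_notMem hmem
    refine ⟨(-(t * φ z)⁻¹) • φ, fun x y => ?_⟩
    have h1 : φ (nu μ f g z t x y - nu μ f g z t y x) = 0 :=
      LinearMap.mem_ker.1 (hφ2 (Submodule.subset_span ⟨x, y, rfl⟩))
    rw [nu_apply, nu_apply, map_sub, map_add, map_smul, smul_eq_mul, map_add, map_smul,
      smul_eq_mul] at h1
    have h3 : t * φ z ≠ 0 := mul_ne_zero ht hφ1
    have h4 : φ (μ x y - μ y x) = -((f x * g y - f y * g x) * (t * φ z)) := by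
      rw [map_sub]
      linear_combination h1
    rw [LinearMap.smul_apply, smul_eq_mul, h4]
    field_simp

include hL hz hfz hf hgz hg in
/-- elements of the left and the right annihilator outside `A ^ 2` -/
lemma no_pair (u w : Fin n → ℂ) (hu : u ∈ LAnn μ) (hw : w ∈ RAnn μ) (hz0 : z ≠ 0) (hfu : f u ≠ 0)
    (hgw : g w ≠ 0) (hR : Rigid μ) : False := by
  obtain ⟨t, ht, e, he⟩ := exists_iso μ f g z hL hz hfz hf hgz hg hR
  have hmem : ∀ (ν : Prod' n) x, x ∈ LinearMap.ker ν ↔ ∀ y, ν x y = 0 := by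
    intro ν x
    rw [LinearMap.mem_ker]
    exact ⟨fun h y => by rw [h]; rfl, fun h => LinearMap.ext h⟩
  have hmap : LinearMap.ker (nu μ f g z t) = (LinearMap.ker μ).map e.toLinearMap := by
    ext v
    rw [hmem]
    constructor
    · intro h
      refine ⟨e.symm v, ?_, by simp⟩
      rw [SetLike.mem_coe, hmem]
      intro y
      apply e.injective
      rw [← he, map_zero]
      simpa using h (e y)
    · rintro ⟨x, hx, rfl⟩ y
      rw [SetLike.mem_coe, hmem] at hx
      obtain ⟨y, rfl⟩ := e.surjective y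
      have h1 := he x y
      rw [hx y, map_zero] at h1
      exact h1
  have hfin : Module.finrank ℂ (LinearMap.ker (nu μ f g z t)) =
      Module.finrank ℂ (LinearMap.ker μ) := by
    rw [hmap]
    exact LinearEquiv.finrank_map_eq e (LinearMap.ker μ)
  have hker : ∀ x ∈ LinearMap.ker (nu μ f g z t), f x = 0 := by
    intro x hx
    have h1 := (hmem _ x).1 hx w
    rw [nu_apply, hw x, zero_add] at h1
    rcases smul_eq_zero.1 h1 with h2 | h2
    · rcases mul_eq_zero.1 h2 with h3 | h3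
      · exact (mul_eq_zero.1 h3).resolve_left ht
      · exact absurd h3 hgw
    · exact absurd h2 hz0
  have hlt : LinearMap.ker (nu μ f g z t) < LinearMap.ker μ := by
    refine lt_of_le_of_ne ?_ ?_
    · intro x hx
      have hfx := hker x hx
      rw [hmem] at hx ⊢
      intro y
      have h1 := hx y
      rw [nu_apply, hfx] at h1
      simpa using h1
    · intro h
      have : u ∈ LinearMap.ker (nu μ f g z t) := by
        rw [h, hmem]
        exact hu
      exact hfu (hker u this)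
  have := Submodule.finrank_lt_finrank_of_lt hlt
  omega

end Curve

section Nil

variable {n : ℕ} (μ : Prod' n)

/-- the lower central series, shifted -/
def T : ℕ → Submodule ℂ (Fin n → ℂ)
  | 0 => ⊤
  | j + 1 => Submodule.span ℂ {v | ∃ a ∈ T j, ∃ b, v = μ a b}

lemma mem_T_succ {j : ℕ} {a : Fin n → ℂ} (ha : a ∈ T μ j) (b : Fin n → ℂ) :
    μ a b ∈ T μ (j + 1) := Submodule.subset_span ⟨a, ha, b, rfl⟩

lemma T_anti (j : ℕ) : T μ (j + 1) ≤ T μ j := by
  induction j with
  | zero => exact le_top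
  | succ j ih =>
    refine Submodule.span_le.2 ?_
    rintro v ⟨a, ha, b, rfl⟩
    exact mem_T_succ μ (ih ha) b

lemma T_one : T μ 1 = Square μ := by
  refine le_antisymm (Submodule.span_le.2 ?_) (Submodule.span_le.2 ?_)
  · rintro v ⟨a, -, b, rfl⟩
    exact Submodule.subset_span ⟨a, b, rfl⟩
  · rintro v ⟨a, b, rfl⟩
    exact mem_T_succ μ (j := 0) Submodule.mem_top b

lemma T_mul (hL : Leibniz μ) (j : ℕ) : ∀ (i : ℕ) (a b : Fin n → ℂ), a ∈ T μ i → b ∈ T μ j →
    μ a b ∈ T μ (i + j + 1) := by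
  induction j with
  | zero => intro i a b ha _; exact mem_T_succ μ ha b
  | succ j ih =>
    intro i a b ha hb
    have hle : T μ (j + 1) ≤ (T μ (i + (j + 1) + 1)).comap (μ a) := by
      refine Submodule.span_le.2 ?_
      rintro v ⟨c, hc, d, rfl⟩
      show μ a (μ c d) ∈ T μ (i + (j + 1) + 1)
      have h1 : μ a (μ c d) = μ (μ a c) d - μ (μ a d) c := by rw [hL a c d]; abel
      rw [h1]
      refine Submodule.sub_mem _ ?_ ?_
      · exact mem_T_succ μ (ih i a c ha hc) d
      · have := ih (i + 1) (μ a d) c (mem_T_succ μ ha d) hc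
        have e : i + 1 + j + 1 = i + (j + 1) + 1 := by ring
        rw [e] at this
        exact this
    exact hle hb

lemma leftProd_congr (x x' : ℕ → (Fin n → ℂ)) (j : ℕ) (h : ∀ i ≤ j, x i = x' i) :
    leftProd μ x j = leftProd μ x' j := by
  induction j with
  | zero => exact h 0 le_rfl
  | succ j ih =>
    show μ (leftProd μ x j) (x (j + 1)) = μ (leftProd μ x' j) (x' (j + 1))
    rw [ih (fun i hi => h i (by omega)), h (j + 1) le_rfl]

lemma T_le (j : ℕ) : T μ j ≤ Submodule.span ℂ {v | ∃ x, v = leftProd μ x j} := by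
  induction j with
  | zero =>
    intro v _
    exact Submodule.subset_span ⟨fun _ => v, rfl⟩
  | succ j ih =>
    refine Submodule.span_le.2 ?_
    rintro v ⟨a, ha, b, rfl⟩
    have hle : Submodule.span ℂ {v | ∃ x, v = leftProd μ x j} ≤
        (Submodule.span ℂ {v | ∃ x, v = leftProd μ x (j + 1)}).comap (μ.flip b) := by
      refine Submodule.span_le.2 ?_
      rintro _ ⟨x, rfl⟩
      show μ (leftProd μ x j) b ∈ Submodule.span ℂ {v | ∃ x, v = leftProd μ x (j + 1)}
      refine Submodule.subset_span ⟨Function.update x (j + 1) b, ?_⟩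
      show _ = μ (leftProd μ (Function.update x (j + 1) b) j)
        (Function.update x (j + 1) b (j + 1))
      rw [Function.update_self, leftProd_congr μ x (Function.update x (j + 1) b) j]
      intro i hi
      rw [Function.update_of_ne (by omega)]
    exact hle (ih ha)

lemma T_bot (hN : Nilpotent μ) : ∃ m, T μ m = ⊥ := by
  obtain ⟨m, hm⟩ := hN
  refine ⟨m, le_bot_iff.1 ((T_le μ m).trans (Submodule.span_le.2 ?_))⟩
  rintro v ⟨x, rfl⟩
  exact hm x

lemma square_ne_top (hn : 1 ≤ n) (hN : Nilpotent μ) : Square μ ≠ ⊤ := by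
  intro h
  have htop : ∀ j, T μ j = ⊤ := by
    intro j
    induction j with
    | zero => rfl
    | succ j ih =>
      have : T μ (j + 1) = T μ 1 := by
        show Submodule.span ℂ {v | ∃ a ∈ T μ j, ∃ b, v = μ a b} =
          Submodule.span ℂ {v | ∃ a ∈ T μ 0, ∃ b, v = μ a b}
        rw [ih]; rfl
      rw [this, T_one, h]
  obtain ⟨m, hm⟩ := T_bot μ hN
  rw [htop m] at hm
  have : Nonempty (Fin n) := ⟨⟨0, hn⟩⟩
  exact top_ne_bot hm

lemma exists_ann (hn : 1 ≤ n) (hL : Leibniz μ) (hN : Nilpotent μ) :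
    ∃ z ∈ Ann μ, z ≠ 0 ∧ (Square μ ≠ ⊥ → z ∈ Square μ) := by
  classical
  have hex := T_bot μ hN
  have hk := Nat.find_spec hex
  have : Nonempty (Fin n) := ⟨⟨0, hn⟩⟩
  obtain ⟨j, hj⟩ : ∃ j, Nat.find hex = j + 1 := by
    rcases Nat.eq_zero_or_pos (Nat.find hex) with h | h
    · exfalso
      rw [h] at hk
      exact top_ne_bot hk
    · exact ⟨Nat.find hex - 1, by omega⟩
  have hne : T μ j ≠ ⊥ := Nat.find_min hex (by omega)
  rw [hj] at hk
  obtain ⟨z, hz, hz0⟩ := Submodule.exists_mem_ne_zero_of_ne_bot hne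
  refine ⟨z, fun x => ⟨?_, ?_⟩, hz0, ?_⟩
  · have := mem_T_succ μ hz x
    rw [hk] at this
    exact (Submodule.mem_bot ℂ).1 this
  · have := T_mul μ hL j 0 x z Submodule.mem_top hz
    rw [zero_add, hk] at this
    exact (Submodule.mem_bot ℂ).1 this
  · intro hS
    rcases Nat.eq_zero_or_pos j with h | h
    · exfalso
      subst h
      rw [zero_add, T_one] at hk
      exact hS hk
    · rw [← T_one]
      have hanti : Antitone (T μ) := antitone_nat_of_succ_le (T_anti μ)
      exact hanti h hz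

end Nil

lemma zero_not_rigid {n : ℕ} (hn : 2 ≤ n) (μ : Prod' n) (hL : Leibniz μ) (h0 : ∀ x y, μ x y = 0)
    (hR : Rigid μ) : False := by
  let i : Fin n := ⟨0, by omega⟩
  let j : Fin n := ⟨1, by omega⟩
  have hij : i ≠ j := by simp [i, j]
  have hA : ∀ x, x ∈ Ann μ := fun x y => ⟨h0 _ _, h0 _ _⟩
  have h1 : (LinearMap.proj j : (Fin n → ℂ) →ₗ[ℂ] ℂ) (Pi.single i 1) = 0 := by
    simp [hij.symm]
  have h2 : (LinearMap.proj j : (Fin n → ℂ) →ₗ[ℂ] ℂ) (Pi.single j 1) ≠ 0 := by
    simp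
  refine no_pair μ (LinearMap.proj j) (LinearMap.proj j) (Pi.single i 1) hL (hA _) h1
    (fun x y => by rw [h0, map_zero]) h1 (fun x y => by rw [h0, map_zero]) (Pi.single j 1)
    (Pi.single j 1) (fun x => h0 _ _) (fun x => h0 _ _) ?_ h2 h2 hR
  intro h
  have := congrFun h i
  simp at this

theorem result (n : ℕ) (hn : 2 ≤ n) (μ : Prod' n) (hL : Leibniz μ) (hN : Nilpotent μ)
    (hR : Rigid μ) :
    ¬ IsLie μ ∧ (LAnn μ ⊆ Square μ ∨ RAnn μ ⊆ Square μ) ∧
    (¬ Ann μ ⊆ Leib μ → SquareComponents μ) ∧ (¬ Ann μ ⊆ Comm μ → CommComponents μ) := by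
  have hS : Square μ ≠ ⊥ := by
    intro hS
    refine zero_not_rigid hn μ hL (fun x y => ?_) hR
    have : μ x y ∈ Square μ := Submodule.subset_span ⟨x, y, rfl⟩
    rw [hS] at this
    exact (Submodule.mem_bot ℂ).1 this
  obtain ⟨z₀, hz₀, hz₀0, hz₀S⟩ := exists_ann μ (by omega) hL hN
  have hz₀S := hz₀S hS
  have hle : ∀ f : (Fin n → ℂ) →ₗ[ℂ] ℂ, (∀ x y, f (μ x y) = 0) → ∀ v ∈ Square μ, f v = 0 := by
    intro f hf v hv
    have hle : Square μ ≤ LinearMap.ker f := by
      refine Submodule.span_le.2 ?_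
      rintro v ⟨x, y, rfl⟩
      exact LinearMap.mem_ker.2 (hf x y)
    exact LinearMap.mem_ker.1 (hle hv)
  have hAS : LAnn μ ⊆ Square μ ∨ RAnn μ ⊆ Square μ := by
    by_contra hcon
    push Not at hcon
    obtain ⟨h1, h2⟩ := hcon
    rw [Set.not_subset] at h1 h2
    obtain ⟨u, hu, huS⟩ := h1
    obtain ⟨w, hw, hwS⟩ := h2
    obtain ⟨f, hf1, hf2⟩ := Submodule.exists_le_ker_of_notMem (p := Square μ) huS
    obtain ⟨g, hg1, hg2⟩ := Submodule.exists_le_ker_of_notMem (p := Square μ) hwS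
    have hf : ∀ x y, f (μ x y) = 0 := fun x y =>
      LinearMap.mem_ker.1 (hf2 (Submodule.subset_span ⟨x, y, rfl⟩))
    have hg : ∀ x y, g (μ x y) = 0 := fun x y =>
      LinearMap.mem_ker.1 (hg2 (Submodule.subset_span ⟨x, y, rfl⟩))
    exact no_pair μ f g z₀ hL hz₀ (hle f hf _ hz₀S) hf (hle g hg _ hz₀S) hg u w hu hw hz₀0 hf1
      hg1 hR
  have hAn : Ann μ ⊆ Square μ := by
    intro x hx
    rcases hAS with h | h
    · exact h (fun y => (hx y).1)
    · exact h (fun y => (hx y).2)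
  have hC : ¬ Ann μ ⊆ Leib μ → ∀ f g : (Fin n → ℂ) →ₗ[ℂ] ℂ, (∀ x y, f (μ x y) = 0) →
      (∀ x y, g (μ x y) = 0) → ∃ φ : (Fin n → ℂ) →ₗ[ℂ] ℂ, ∀ x, f x * g x = φ (μ x x) := by
    intro hA f g hf hg
    rw [Set.not_subset] at hA
    obtain ⟨z, hz, hzL⟩ := hA
    exact component μ f g z hL hz (hle f hf _ (hAn hz)) hf (hle g hg _ (hAn hz)) hg hR hzL
  refine ⟨?_, hAS, hC, ?_⟩
  · intro hLie
    have hLb : Leib μ = ⊥ := by
      refine le_bot_iff.1 (Submodule.span_le.2 ?_)
      rintro v ⟨x, rfl⟩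
      exact hLie x
    have hA : ¬ Ann μ ⊆ Leib μ := by
      intro h
      have := h hz₀
      rw [hLb] at this
      exact hz₀0 ((Submodule.mem_bot ℂ).1 this)
    obtain ⟨f, hf1, hf2⟩ := Submodule.exists_le_ker_of_lt_top (Square μ)
      (lt_top_iff_ne_top.2 (square_ne_top μ (by omega) hN))
    have hf : ∀ x y, f (μ x y) = 0 := fun x y =>
      LinearMap.mem_ker.1 (hf2 (Submodule.subset_span ⟨x, y, rfl⟩))
    obtain ⟨φ, hφ⟩ := hC hA f f hf hf
    apply hf1
    apply LinearMap.ext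
    intro x
    have := hφ x
    rw [hLie x, map_zero] at this
    simpa using this
  · intro hA f g hf hg
    rw [Set.not_subset] at hA
    obtain ⟨z, hz, hzL⟩ := hA
    exact component_comm μ f g z hL hz (hle f hf _ (hAn hz)) hf (hle g hg _ (hAn hz)) hg hR hzL

end Pool.Agent.Results.MP_dfe2cd_al.RigidNilpotent
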